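import Pool.Agent.SKQ.Kit

/-!
# SKQ, row OSW: small energy implies small oscillation on annuli
-/

set_option autoImplicit false

namespace Pool.Agent.SKQ.H41

open Metric Set Filter Topology MeasureTheory
open scoped ENNReal
open Helper22QC Pool.Agent.SKQ

variable {n : ℕ}

theorem ApS_congr {C : Set (E n)} {w w₂ : E n → ℝ} {W W₂ : E n → E n} (h : ApS C w W)
    (hCm : MeasurableSet C) (hw : ∀ y ∈ C, w y = w₂ y) (hW : ∀ y ∈ C, W y = W₂ y) :
    ApS C w₂ W₂ := by
  obtain ⟨w', h1, h2, h3⟩ := h.ap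
  have hae : W =ᵐ[volume.restrict C] W₂ := (ae_restrict_iff' hCm).2 (Eventually.of_forall hW)
  refine ⟨h.meas.congr hae, ?_, w', h1, h2.congr_right hw, ?_⟩
  · refine h.int.congr ?_
    filter_upwards [hae] with x hx
    rw [hx]
  · refine h3.congr fun k => ?_
    refine integral_congr_ae ?_
    filter_upwards [hae] with x hx
    rw [hx]

/-- `wf` is a limit of smooth functions on compact sets which do not contain `c` -/
theorem wf_ApS (chr : CHRStmt) (smo : SMOStmt) (hn : 1 ≤ n) {R K : ℝ} {f : E n → E n}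
    {F : E n → Mt n} {c : E n} (hL : Loc R K f F) (hc : c ∈ ball (0 : E n) R) {C : Set (E n)}
    (hC : IsCompact C) (hCR : C ⊆ ball 0 R) (hcC : c ∉ C) :
    ApS C (wf f c) (Wf f F c) := by
  have hV : ApV C f F := hL.sob C hCR hC
  have hfc : ContinuousOn f C := hL.cont.mono hCR
  -- a lower bound
  obtain ⟨μ, hμ, hμ1, hμ2⟩ : ∃ μ : ℝ, 0 < μ ∧ (∀ y ∈ C, μ ≤ ‖f y - f c‖) ∧
      ∀ y ∈ C, μ ≤ ‖y - c‖ := by
    rcases C.eq_empty_or_nonempty with rfl | hne
    · exact ⟨1, one_pos, by simp, by simp⟩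
    · obtain ⟨y1, hy1, hm1⟩ := hC.exists_isMinOn hne (f := fun y => ‖f y - f c‖)
        ((hfc.sub continuousOn_const).norm)
      obtain ⟨y2, hy2, hm2⟩ := hC.exists_isMinOn hne (f := fun y => ‖y - c‖)
        ((continuousOn_id.sub continuousOn_const).norm)
      have hne1 : y1 ≠ c := fun h => hcC (h ▸ hy1)
      have hne2 : y2 ≠ c := fun h => hcC (h ▸ hy2)
      refine ⟨min ‖f y1 - f c‖ ‖y2 - c‖, lt_min (norm_pos_iff.2 (hL.ne (hCR hy1) hc hne1))
        (norm_pos_iff.2 (sub_ne_zero.2 hne2)), fun y hy => ?_, fun y hy => ?_⟩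
      · exact (min_le_left _ _).trans (hm1 hy)
      · exact (min_le_right _ _).trans (hm2 hy)
  obtain ⟨s1, _, s3⟩ := smo n μ hn hμ
  set Ψ : E n × E n → ℝ := fun q => lg μ (q.2 - f c) - lg μ (q.1 - c) with hΨ
  have hΨs : ContDiff ℝ (⊤ : ℕ∞) Ψ :=
    (s1.comp (contDiff_snd.sub contDiff_const)).sub (s1.comp (contDiff_fst.sub contDiff_const))
  have h1 := chr n C f F Ψ hn hC hV hΨs
  refine ApS_congr h1 hC.measurableSet (fun y hy => ?_) (fun y hy => ?_)
  · simp only [hΨ, wf]
    rw [(s3 _ (hμ1 y hy)).1, (s3 _ (hμ2 y hy)).1]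
  · unfold grc
    refine gr_eq fun v => ?_
    have hd : Differentiable ℝ (lg μ : E n → ℝ) := s1.differentiable (by simp)
    have e1 : HasFDerivAt (fun q : E n × E n => lg μ (q.2 - f c))
        ((fderiv ℝ (lg μ) (f y - f c)).comp (ContinuousLinearMap.snd ℝ (E n) (E n))) (y, f y) := by
      have a1 : HasFDerivAt (fun q : E n × E n => q.2 - f c)
          (ContinuousLinearMap.snd ℝ (E n) (E n)) (y, f y) := hasFDerivAt_snd.sub_const _
      exact (hd (f y - f c)).hasFDerivAt.comp (y, f y) a1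
    have e2 : HasFDerivAt (fun q : E n × E n => lg μ (q.1 - c))
        ((fderiv ℝ (lg μ) (y - c)).comp (ContinuousLinearMap.fst ℝ (E n) (E n))) (y, f y) := by
      have a1 : HasFDerivAt (fun q : E n × E n => q.1 - c)
          (ContinuousLinearMap.fst ℝ (E n) (E n)) (y, f y) := hasFDerivAt_fst.sub_const _
      exact (hd (y - c)).hasFDerivAt.comp (y, f y) a1
    have e3 : fderiv ℝ Ψ (y, f y) = _ := (e1.sub e2).fderiv
    rw [e3]
    have g1 := (s3 _ (hμ1 y hy)).2.2.1
    have g2 := (s3 _ (hμ2 y hy)).2.2.1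
    show fderiv ℝ (lg μ) (f y - f c) (F y v) - fderiv ℝ (lg μ) (y - c) v = _
    rw [← inner_gr, ← inner_gr, g1, g2]
    unfold Wf
    rw [inner_sub_left]
    simp only [real_inner_smul_left]
    rw [ContinuousLinearMap.adjoint_inner_left]

theorem log_diff {A B s m : ℝ} (hm : 0 < m) (hA : m ≤ A) (hB : m ≤ B) (h : |A - B| ≤ s) :
    |Real.log A - Real.log B| ≤ s / m := by
  have hA0 : 0 < A := hm.trans_le hA
  have hB0 : 0 < B := hm.trans_le hB
  have key : ∀ A B : ℝ, m ≤ A → m ≤ B → |A - B| ≤ s → Real.log A - Real.log B ≤ s / m := by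
    intro A B hA hB h
    have hA0 : 0 < A := hm.trans_le hA
    have hB0 : 0 < B := hm.trans_le hB
    have hs : 0 ≤ s := (abs_nonneg _).trans h
    rw [← Real.log_div hA0.ne' hB0.ne']
    have h1 := Real.log_le_sub_one_of_pos (show 0 < A / B by positivity)
    refine h1.trans ?_
    have h2 : A / B - 1 = (A - B) / B := by field_simp
    rw [h2]
    refine (div_le_div_of_nonneg_right ((le_abs_self _).trans h) hB0.le).trans ?_
    exact div_le_div_of_nonneg_left hs hm hB
  rw [abs_le]
  constructor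
  · have := key B A hB hA (by rwa [abs_sub_comm])
    linarith
  · exact key A B hA hB h

/-- row OSW -/
theorem osw (osc : OSCStmt) (chr : CHRStmt) (smo : SMOStmt) (int : INTStmt) (geo : GEOStmt)
    (mno : MNOStmt) : OSWStmt := by
  intro n η l hn hη hl
  have hn1 : 1 ≤ n := by omega
  have hn0 : (0 : ℝ) < √n := Real.sqrt_pos.2 (by exact_mod_cast hn1)
  obtain ⟨C, hC, hosc⟩ := osc n hn
  set τ : ℝ := min (1 / (8 * √n)) (η / (16 * √n)) with hτ
  have hτ0 : 0 < τ := lt_min (by positivity) (by positivity)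
  have hτ1 : 8 * √n * τ ≤ 1 := by
    have := min_le_left (1 / (8 * √n)) (η / (16 * √n))
    rw [← hτ, le_div_iff₀ (by positivity)] at this
    linarith
  have hτ2 : 8 * √n * τ ≤ η / 2 := by
    have := min_le_right (1 / (8 * √n)) (η / (16 * √n))
    rw [← hτ, le_div_iff₀ (by positivity)] at this
    linarith
  have hsn : 1 ≤ √n := by
    rw [Real.one_le_sqrt]
    exact_mod_cast hn1
  have hτle : τ ≤ 1 := by nlinarith
  obtain ⟨N, hN⟩ := geo n l (1 / τ) hn hl (by rw [le_div_iff₀ hτ0]; linarith)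
  set ω : ℝ := η / (2 * (N + 3)) with hω
  have hω0 : 0 < ω := by positivity
  refine ⟨ω ^ n / C, by positivity, ?_⟩
  intro R K a b f F c hL ha hab hbl hball hWi hWδ
  set h : ℝ := τ * a with hh
  have hh0 : 0 < h := by positivity
  have hb0 : 0 < b := ha.trans_le hab
  have h8 : 8 * √n * h ≤ a := by
    rw [hh]
    calc 8 * √n * (τ * a) = (8 * √n * τ) * a := by ring
      _ ≤ 1 * a := by gcongr
      _ = a := one_mul a
  have hcR : c ∈ ball (0 : E n) R := hball (mem_closedBall_self (by positivity))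
  -- the cubes
  have hcube : ∀ p ∈ ann c (3 / 4 * a) (5 / 4 * b), cube p (2 * h) ⊆ ann c (a / 2) (2 * b) := by
    intro p hp y hy
    have h1 := cube_subset_closedBall p (t := 2 * h) (by positivity) hy
    rw [mem_closedBall, dist_eq_norm] at h1
    have h2 : ‖y - p‖ ≤ a / 4 := h1.trans (by linarith)
    have h3 : ‖y - c‖ ≤ ‖y - p‖ + ‖p - c‖ := by
      have := norm_add_le (y - p) (p - c)
      rwa [sub_add_sub_cancel] at this
    have h4 : ‖p - c‖ ≤ ‖y - p‖ + ‖y - c‖ := by
      have := norm_sub_le (y - c) (y - p)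
      rw [sub_sub_sub_cancel_left] at this
      linarith
    have h5 := hp.1
    have h6 := hp.2
    exact ⟨by linarith, by linarith⟩
  have hannR : ann c (a / 2) (2 * b) ⊆ ball 0 R := by
    intro y hy
    refine hball ?_
    rw [mem_closedBall, dist_eq_norm]
    have := hy.2
    linarith
  have hcann : ∀ y ∈ ann c (a / 2) (2 * b), a / 2 ≤ ‖y - c‖ := fun y hy => hy.1
  have hcc : c ∉ ann c (a / 2) (2 * b) := by
    intro h
    have := h.1
    rw [sub_self, norm_zero] at this
    linarith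
  -- good radii
  have hrad : ∀ p : E n, ∃ t : ℝ, p ∈ ann c (3 / 4 * a) (5 / 4 * b) → h ≤ t ∧ t ≤ 2 * h ∧
      (∀ x ∈ bcube p t, ∀ y ∈ bcube p t, |wf f c x - wf f c y| ≤ ω) := by
    intro p
    by_cases hp : p ∈ ann c (3 / 4 * a) (5 / 4 * b)
    · have hA : ApS (cube p (2 * h)) (wf f c) (Wf f F c) :=
        wf_ApS chr smo hn1 hL hcR (isCompact_cube p _) ((hcube p hp).trans hannR)
          (fun hm => hcc (hcube p hp hm))
      obtain ⟨t, ht1, ht2, ht3⟩ := hosc 1 (fun _ => wf f c) (fun _ => Wf f F c) p h hh0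
        (fun _ => hA)
      refine ⟨t, fun _ => ⟨ht1, ht2, fun x hx y hy => ?_⟩⟩
      have h1 := ht3 0 x hx y hy
      have h2 : ∫ z in cube p (2 * h), ∑ _j : Fin 1, ‖Wf f F c z‖ ^ n ≤ ω ^ n / C := by
        simp only [Finset.univ_unique, Finset.sum_singleton]
        refine le_trans ?_ hWδ
        exact setIntegral_mono_set hWi (Eventually.of_forall fun z => by positivity)
          (hcube p hp).eventuallyLE
      have h3 : |wf f c x - wf f c y| ^ n ≤ ω ^ n := by
        refine h1.trans ?_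
        calc C * ∫ z in cube p (2 * h), ∑ _j : Fin 1, ‖Wf f F c z‖ ^ n ≤ C * (ω ^ n / C) := by
              gcongr
          _ = ω ^ n := by field_simp
      exact le_of_pow_le_pow_left₀ (by omega) hω0.le h3
    · exact ⟨0, fun h => absurd h hp⟩
  choose rd hrd using hrad
  -- the centre against the boundary
  have hcen : ∀ p ∈ ann c (3 / 4 * a) (5 / 4 * b), (bcube p (rd p)).Nonempty ∧
      ∀ x ∈ bcube p (rd p), |wf f c p - wf f c x| ≤ ω + 4 * √n * τ := by
    intro p hp
    obtain ⟨r1, r2, r3⟩ := hrd p hp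
    have hr0 : 0 < rd p := hh0.trans_le r1
    have hsub : cube p (rd p) ⊆ ann c (a / 2) (2 * b) := (cube_mono p r2).trans (hcube p hp)
    have hpc : p ∈ cube p (rd p) := fun i => by rw [sub_self, abs_zero]; exact hr0.le
    obtain ⟨y1, hy1, y2, hy2, hle1, hle2⟩ := mno n R K (rd p) f F c p hn1 hL hcR hr0
      (hsub.trans hannR) (fun h => hcc (hsub h)) p hpc
    refine ⟨⟨y1, hy1⟩, fun x hx => ?_⟩
    have hlog : ∀ y ∈ bcube p (rd p), |Real.log ‖y - c‖ - Real.log ‖p - c‖| ≤ 4 * √n * τ := by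
      intro y hy
      have hyc := hy.1
      have h1 := cube_subset_closedBall p hr0.le (bcube_subset_cube _ _ hy)
      rw [mem_closedBall, dist_eq_norm] at h1
      have h2 : |‖y - c‖ - ‖p - c‖| ≤ √n * (2 * h) := by
        refine (abs_norm_sub_norm_le _ _).trans ?_
        rw [sub_sub_sub_cancel_right]
        exact h1.trans (by gcongr)
      have h3 := log_diff (show 0 < a / 2 by positivity)
        (hcann y (hsub (bcube_subset_cube _ _ hy))) (hcann p (hsub hpc)) h2
      refine h3.trans (le_of_eq ?_)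
      rw [hh]
      field_simp
      ring
    have hne : ∀ y ∈ bcube p (rd p), 0 < ‖f y - f c‖ := by
      intro y hy
      have hyA := hsub (bcube_subset_cube _ _ hy)
      have hyne : y ≠ c := by
        rintro rfl
        exact hcc hyA
      exact norm_pos_iff.2 (hL.ne (hannR hyA) hcR hyne)
    have hpA : p ∈ ann c (a / 2) (2 * b) := hsub hpc
    have hpne' : p ≠ c := by
      intro he
      rw [he] at hpA
      exact hcc hpA
    have hpne : 0 < ‖f p - f c‖ := norm_pos_iff.2 (hL.ne (hannR hpA) hcR hpne')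
    have l1 := Real.log_le_log (hne y1 hy1) hle1
    have l2 := Real.log_le_log hpne hle2
    have b1 := abs_le.1 (hlog y1 hy1)
    have b2 := abs_le.1 (hlog y2 hy2)
    have c1 := abs_le.1 (r3 y1 hy1 x hx)
    have c2 := abs_le.1 (r3 y2 hy2 x hx)
    unfold wf at c1 c2 ⊢
    rw [abs_le]
    constructor <;> linarith
  intro y hy y' hy'
  obtain ⟨q, hq0, hqN, hq⟩ := hN c a b h hh0 h8 hab hbl (by rw [hh]; field_simp; exact le_refl _)
    y hy y' hy'
  have hannsub : ann c a b ⊆ ann c (3 / 4 * a) (5 / 4 * b) := by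
    intro z hz
    exact ⟨by linarith [hz.1], by linarith [hz.2]⟩
  have hqann : ∀ k ≤ N, q k ∈ ann c (3 / 4 * a) (5 / 4 * b) := by
    intro k hk
    rcases hk.lt_or_eq with h | rfl
    · exact (hq k h).1
    · rw [hqN]; exact hannsub hy'
  obtain ⟨x0, hx0⟩ := (hcen (q 0) (hqann 0 (Nat.zero_le _))).1
  have hchain : ∀ k ≤ N, ∀ x ∈ bcube (q k) (rd (q k)), |wf f c x - wf f c x0| ≤ (k + 1) * ω := by
    intro k
    induction k with
    | zero =>
      intro h0 x hx
      have := (hrd (q 0) (hqann 0 h0)).2.2 x hx x0 hx0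
      simpa using this
    | succ k ih =>
      intro hk x hx
      have hk' : k ≤ N := by omega
      have hk'' : k < N := by omega
      have ih' := ih hk'
      rcases (hq k hk'').2 with heq | ⟨δ', hd1, hd2, hd3, hd4⟩
      · rw [heq] at hx
        have := ih' x hx
        push_cast
        nlinarith
      · obtain ⟨r1, r2, r3⟩ := hrd (q k) (hqann k hk')
        obtain ⟨r1', r2', r3'⟩ := hrd (q (k + 1)) (hqann (k + 1) hk)
        obtain ⟨z, hz1, hz2⟩ := int n (q k) (q (k + 1)) (rd (q k)) (rd (q (k + 1))) δ' hn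
          (hh0.trans_le r1) (hh0.trans_le r1') (hh0.trans_le hd1) hd3 hd4 (by linarith)
          (by linarith) (by linarith)
        have e1 := ih' z hz1
        have e2 := r3' x hx z hz2
        have e3 : |wf f c x - wf f c x0| ≤ |wf f c x - wf f c z| + |wf f c z - wf f c x0| := by
          have := abs_add_le (wf f c x - wf f c z) (wf f c z - wf f c x0)
          rwa [sub_add_sub_cancel] at this
        push_cast
        linarith
  obtain ⟨xN, hxN⟩ := (hcen (q N) (hqann N le_rfl)).1
  have f1 := (hcen (q 0) (hqann 0 (Nat.zero_le _))).2 x0 hx0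
  have f2 := (hcen (q N) (hqann N le_rfl)).2 xN hxN
  have f3 := hchain N le_rfl xN hxN
  rw [hq0] at f1
  rw [hqN] at f2
  have hsum : (N + 3) * ω = η / 2 := by
    rw [hω]
    field_simp
  have g1 := abs_le.1 f1
  have g2 := abs_le.1 f2
  have g3 := abs_le.1 f3
  rw [abs_le]
  constructor <;> nlinarith

end Pool.Agent.SKQ.H41
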