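import Pool.Agent.SKQ.Kit

/-!
# SKQ, row PCR: Poincare inequality with boundary values on a cube
-/

set_option autoImplicit false

namespace Pool.Agent.SKQ.H41

open Metric Set Filter Topology MeasureTheory
open scoped ENNReal
open Helper22QC Pool.Agent.SKQ

variable {n : ℕ}

theorem volume_cube (c : E n) {t : ℝ} (ht : 0 ≤ t) :
    volume (cube c t) = ENNReal.ofReal ((2 * t) ^ n) := by
  have h1 : cube c t = (WithLp.ofLp : E n → (Fin n → ℝ)) ⁻¹' closedBall (WithLp.ofLp c) t := by
    ext y
    simp only [cube, mem_preimage, mem_closedBall, mem_ofPred_eq]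
    rw [dist_pi_le_iff ht]
    rfl
  rw [h1, (PiLp.volume_preserving_ofLp (Fin n)).measure_preimage
    (isClosed_closedBall.measurableSet.nullMeasurableSet), Real.volume_pi_closedBall _ ht]
  simp

theorem volume_cube_toReal (c : E n) {t : ℝ} (ht : 0 ≤ t) :
    (volume (cube c t)).toReal = (2 * t) ^ n := by
  rw [volume_cube c ht, ENNReal.toReal_ofReal (by positivity)]

/-- the smooth case -/
theorem poinc_smooth (hn : 1 ≤ n) (w : E n → ℝ) (hw : ContDiff ℝ (⊤ : ℕ∞) w) (c : E n)
    (t b σ : ℝ) (ht : 0 < t) (hb : ∀ x ∈ bcube c t, |w x - b| ≤ σ) :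
    ∫ x in cube c t, |w x - b| ≤
      (2 * t) ^ n * σ + 2 * t * ∫ x in cube c t, ‖gr (fderiv ℝ w x)‖ := by
  classical
  set i0 : Fin n := ⟨0, by omega⟩
  set e : E n := EuclideanSpace.single i0 1 with he
  have hen : ‖e‖ = 1 := by simp [he]
  have hei : ∀ i, e i = if i = i0 then 1 else 0 := by
    intro i
    rw [he, PiLp.single_apply]
  have hGc : Continuous fun x => ‖gr (fderiv ℝ w x)‖ := (continuous_grad hw).norm
  have hQc := isCompact_cube c t
  have hQm := measurableSet_cube c t
  set g : E n → ℝ := (cube c t).indicator (fun x => ‖gr (fderiv ℝ w x)‖) with hg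
  have hgm : Measurable g := hGc.measurable.indicator hQm
  have hg0 : ∀ x, 0 ≤ g x := fun x => indicator_nonneg (fun _ _ => norm_nonneg _) x
  obtain ⟨M, hM⟩ := hQc.exists_bound_of_continuousOn hGc.continuousOn
  have hgM : ∀ x, ‖g x‖ ≤ max M 0 := by
    intro x
    by_cases hx : x ∈ cube c t
    · rw [hg, indicator_of_mem hx]
      exact (hM x hx).trans (le_max_left _ _)
    · rw [hg, indicator_of_notMem hx, norm_zero]
      exact le_max_right _ _
  have hgi : Integrable g := (integrable_indicator_iff hQm).2
    (hGc.continuousOn.integrableOn_compact hQc)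
  have hvfin : volume (cube c t) ≠ ⊤ := hQc.measure_lt_top.ne
  have hF1 : IsFiniteMeasure (volume.restrict (cube c t)) := ⟨by
    rw [Measure.restrict_apply_univ]; exact hQc.measure_lt_top⟩
  have hprod : Integrable (fun q : E n × ℝ => g (q.1 + q.2 • e))
      ((volume.restrict (cube c t)).prod (volume.restrict (Icc (-(2 * t)) 0))) := by
    refine Integrable.of_bound (hgm.comp (by fun_prop)).aestronglyMeasurable (max M 0)
      (Eventually.of_forall fun q => hgM _)
  -- pointwise
  have hpt : ∀ x ∈ cube c t, |w x - b| ≤ σ + ∫ s in Icc (-(2 * t)) 0, g (x + s • e) := by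
    intro x hx
    set a : ℝ := x i0 - (c i0 - t) with ha
    have hxi := abs_le.1 (hx i0)
    have ha0 : 0 ≤ a := by rw [ha]; linarith
    have ha2 : a ≤ 2 * t := by rw [ha]; linarith
    have hcoord : ∀ s : ℝ, ∀ i, (x + s • e) i = x i + s * (if i = i0 then 1 else 0) := by
      intro s i
      rw [PiLp.add_apply, PiLp.smul_apply, hei, smul_eq_mul]
    have hmem : ∀ s ∈ Icc (-a) 0, x + s • e ∈ cube c t := by
      intro s hs i
      rw [hcoord]
      by_cases hi : i = i0
      · rw [if_pos hi, hi, abs_le]
        have := hs.1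
        have := hs.2
        constructor <;> linarith
      · rw [if_neg hi, mul_zero, add_zero]
        exact hx i
    have hbd : x + (-a) • e ∈ bcube c t := by
      refine ⟨hmem (-a) ⟨le_rfl, by linarith⟩, i0, ?_⟩
      rw [hcoord, if_pos rfl]
      have : x i0 + -a * 1 - c i0 = -t := by rw [ha]; ring
      rw [this, abs_neg, abs_of_pos ht]
    have hder : ∀ s : ℝ, HasDerivAt (fun s : ℝ => w (x + s • e)) (fderiv ℝ w (x + s • e) e) s := by
      intro s
      have h1 : HasDerivAt (fun s : ℝ => x + s • e) e s := by
        have := (hasDerivAt_id s).smul_const e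
        simpa using this.const_add x
      exact ((hw.differentiable (by simp)).differentiableAt.hasFDerivAt).comp_hasDerivAt s h1
    have hdc : Continuous fun s : ℝ => fderiv ℝ w (x + s • e) e := by
      have h1 : Continuous fun s : ℝ => fderiv ℝ w (x + s • e) :=
        (hw.continuous_fderiv (by simp)).comp (by fun_prop)
      exact h1.clm_apply continuous_const
    have hftc : ∫ s in (-a)..0, fderiv ℝ w (x + s • e) e = w x - w (x + (-a) • e) := by
      have := intervalIntegral.integral_eq_sub_of_hasDerivAt (f := fun s : ℝ => w (x + s • e))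
        (fun s _ => hder s) (hdc.intervalIntegrable (-a) 0)
      rw [this]
      simp
    have hgsi : IntegrableOn (fun s : ℝ => g (x + s • e)) (Icc (-(2 * t)) 0) := by
      refine Integrable.of_bound (hgm.comp (by fun_prop)).aestronglyMeasurable (max M 0)
        (Eventually.of_forall fun s => hgM _)
    have h2 : |w x - w (x + (-a) • e)| ≤ ∫ s in Icc (-(2 * t)) 0, g (x + s • e) := by
      rw [← hftc, ← Real.norm_eq_abs]
      refine (intervalIntegral.norm_integral_le_integral_norm (by linarith)).trans ?_
      rw [intervalIntegral.integral_of_le (by linarith), ← integral_Icc_eq_integral_Ioc]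
      have hsub : Icc (-a) 0 ⊆ Icc (-(2 * t)) 0 := Icc_subset_Icc_left (by linarith)
      have h3 : ∫ s in Icc (-a) 0, ‖fderiv ℝ w (x + s • e) e‖ ≤
          ∫ s in Icc (-a) 0, g (x + s • e) := by
        refine setIntegral_mono_on (hdc.norm.continuousOn.integrableOn_compact isCompact_Icc)
          (hgsi.mono_set hsub) measurableSet_Icc fun s hs => ?_
        rw [hg, indicator_of_mem (hmem s hs), norm_gr]
        exact (ContinuousLinearMap.le_opNorm _ _).trans (by rw [hen, mul_one])
      refine h3.trans ?_
      exact setIntegral_mono_set hgsi (Eventually.of_forall fun s => hg0 _) hsub.eventuallyLE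
    have h4 := hb _ hbd
    calc |w x - b| = |(w (x + (-a) • e) - b) + (w x - w (x + (-a) • e))| := by ring_nf
      _ ≤ |w (x + (-a) • e) - b| + |w x - w (x + (-a) • e)| := abs_add_le _ _
      _ ≤ _ := add_le_add h4 h2
  have hi1 : IntegrableOn (fun x => |w x - b|) (cube c t) :=
    ((hw.continuous.sub continuous_const).abs.continuousOn).integrableOn_compact hQc
  have hi2 : Integrable (fun x => ∫ s in Icc (-(2 * t)) 0, g (x + s • e))
      (volume.restrict (cube c t)) := hprod.integral_prod_left
  calc ∫ x in cube c t, |w x - b|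
      ≤ ∫ x in cube c t, (σ + ∫ s in Icc (-(2 * t)) 0, g (x + s • e)) :=
        setIntegral_mono_on hi1 ((integrable_const σ).add hi2) hQm hpt
    _ = (2 * t) ^ n * σ + ∫ x in cube c t, ∫ s in Icc (-(2 * t)) 0, g (x + s • e) := by
        rw [integral_add (integrable_const σ) hi2]
        congr 1
        rw [setIntegral_const, smul_eq_mul, Measure.real, volume_cube_toReal c ht.le]
    _ ≤ _ := by
        refine add_le_add le_rfl ?_
        rw [integral_integral_swap hprod]
        have h5 : ∀ s : ℝ, ∫ x in cube c t, g (x + s • e) ≤ ∫ x in cube c t,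
            ‖gr (fderiv ℝ w x)‖ := by
          intro s
          have h6 : Integrable (fun x => g (x + s • e)) := hgi.comp_add_right (s • e)
          calc ∫ x in cube c t, g (x + s • e) ≤ ∫ x, g (x + s • e) :=
                setIntegral_le_integral h6 (Eventually.of_forall fun x => hg0 _)
            _ = ∫ x, g x := integral_add_right_eq_self g (s • e)
            _ = _ := by rw [hg, integral_indicator hQm]
        have h7 : ∫ s in Icc (-(2 * t)) 0, ∫ x in cube c t, g (x + s • e) ≤
            ∫ _s in Icc (-(2 * t)) (0 : ℝ), ∫ x in cube c t, ‖gr (fderiv ℝ w x)‖ := by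
          refine integral_mono hprod.integral_prod_right (integrable_const _) fun s => h5 s
        refine h7.trans (le_of_eq ?_)
        rw [setIntegral_const, smul_eq_mul, Measure.real, Real.volume_Icc,
          ENNReal.toReal_ofReal (by linarith)]
        ring

/-- row PCR -/
theorem pcr : PCRStmt := by
  intro n hn
  refine ⟨2 ^ n + 2, by positivity, ?_⟩
  intro w W c t b σ ht hA hb
  have hQc := isCompact_cube c t
  have hQm := measurableSet_cube c t
  have hwc := hA.continuousOn
  obtain ⟨w', h1, h2, h3⟩ := hA.ap
  set V : ℝ := (2 * t) ^ n with hV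
  have hV0 : 0 ≤ V := by positivity
  have hVr : (volume (cube c t)).toReal = V := volume_cube_toReal c ht.le
  have hF1 : IsFiniteMeasure (volume.restrict (cube c t)) := ⟨by
    rw [Measure.restrict_apply_univ]; exact hQc.measure_lt_top⟩
  -- integrability of the norm of the gradient
  have hWi : IntegrableOn (fun x => ‖W x‖) (cube c t) := by
    refine Integrable.mono' ((integrable_const (1 : ℝ)).add hA.int) hA.meas.norm
      (Eventually.of_forall fun x => ?_)
    rw [norm_norm]
    rcases le_total ‖W x‖ 1 with h | h
    · exact h.trans (by simp only [Pi.add_apply]; have := pow_nonneg (norm_nonneg (W x)) n; linarith)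
    · refine (le_self_pow₀ h (show n ≠ 0 by omega)).trans ?_
      simp only [Pi.add_apply]
      linarith
  have hσ : 0 ≤ σ := by
    have hb0 : c + EuclideanSpace.single (⟨0, by omega⟩ : Fin n) t ∈ bcube c t := by
      have hc : ∀ i, (c + EuclideanSpace.single (⟨0, by omega⟩ : Fin n) t : E n) i - c i =
          if i = (⟨0, by omega⟩ : Fin n) then t else 0 := by
        intro i
        rw [PiLp.add_apply, PiLp.single_apply]
        ring
      refine ⟨fun i => ?_, ⟨0, by omega⟩, ?_⟩
      · rw [hc]
        split_ifs
        · rw [abs_of_pos ht]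
        · rw [abs_zero]; exact ht.le
      · rw [hc, if_pos rfl, abs_of_pos ht]
    exact (abs_nonneg _).trans (hb _ hb0)
  have hIW : 0 ≤ ∫ x in cube c t, ‖W x‖ := integral_nonneg fun x => norm_nonneg _
  have key : ∀ η : ℝ, 0 < η → ∫ x in cube c t, |w x - b| ≤
      V * σ + 2 * t * (∫ x in cube c t, ‖W x‖) + η * (2 * V + 2 * t * (V + 1)) := by
    intro η hη
    have e1 : ∀ᶠ k in atTop, ∀ x ∈ cube c t, ‖w x - w' k x‖ < η := by
      have := (Metric.tendstoUniformlyOn_iff.1 h2) η hη
      filter_upwards [this] with k hk x hx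
      rw [← dist_eq_norm]; exact hk x hx
    have e2 : ∀ᶠ k in atTop, ∫ x in cube c t, ‖gr (fderiv ℝ (w' k) x) - W x‖ ^ n < η ^ n :=
      h3.eventually_lt_const (pow_pos hη n)
    obtain ⟨k, hk1, hk2⟩ := (e1.and e2).exists
    have hgc : Continuous fun x => gr (fderiv ℝ (w' k) x) := continuous_grad (h1 k)
    have hgi : IntegrableOn (fun x => ‖gr (fderiv ℝ (w' k) x)‖) (cube c t) :=
      hgc.norm.continuousOn.integrableOn_compact hQc
    have hdi : IntegrableOn (fun x => ‖gr (fderiv ℝ (w' k) x) - W x‖ ^ n) (cube c t) :=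
      integrableOn_sub_pow hA.meas hA.int hgc.aestronglyMeasurable
        ((hgc.norm.pow n).continuousOn.integrableOn_compact hQc)
    -- the L1 norm of the difference
    have h4 : ∫ x in cube c t, ‖gr (fderiv ℝ (w' k) x)‖ ≤
        (∫ x in cube c t, ‖W x‖) + η * (V + 1) := by
      have hp : ∀ x, ‖gr (fderiv ℝ (w' k) x)‖ ≤ ‖W x‖ + (η +
          (η / η ^ n) * ‖gr (fderiv ℝ (w' k) x) - W x‖ ^ n) := by
        intro x
        set d := ‖gr (fderiv ℝ (w' k) x) - W x‖ with hd
        have hd0 : 0 ≤ d := norm_nonneg _
        have ht1 : ‖gr (fderiv ℝ (w' k) x)‖ ≤ ‖W x‖ + d := by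
          have := norm_add_le (W x) (gr (fderiv ℝ (w' k) x) - W x)
          rwa [add_sub_cancel] at this
        have ht2 : d ≤ η + (η / η ^ n) * d ^ n := by
          rcases le_total d η with h | h
          · have : 0 ≤ (η / η ^ n) * d ^ n := by positivity
            linarith
          · have h5 : 1 ≤ d / η := by rwa [le_div_iff₀ hη, one_mul]
            have h6 : d / η ≤ (d / η) ^ n := le_self_pow₀ h5 (by omega)
            have h7 : (η / η ^ n) * d ^ n = η * (d / η) ^ n := by
              rw [div_pow]; ring
            rw [h7]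
            have h8 : η * (d / η) = d := by field_simp
            nlinarith
        linarith
      have hi3' : IntegrableOn (fun x => η +
          (η / η ^ n) * ‖gr (fderiv ℝ (w' k) x) - W x‖ ^ n) (cube c t) :=
        (integrable_const η).add (hdi.const_mul _)
      have hi3 : IntegrableOn (fun x => ‖W x‖ + (η +
          (η / η ^ n) * ‖gr (fderiv ℝ (w' k) x) - W x‖ ^ n)) (cube c t) :=
        hWi.add hi3'
      calc ∫ x in cube c t, ‖gr (fderiv ℝ (w' k) x)‖
          ≤ ∫ x in cube c t, (‖W x‖ + (η +
          (η / η ^ n) * ‖gr (fderiv ℝ (w' k) x) - W x‖ ^ n)) :=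
            integral_mono hgi hi3 hp
        _ = (∫ x in cube c t, ‖W x‖) + (V * η + (η / η ^ n) *
              ∫ x in cube c t, ‖gr (fderiv ℝ (w' k) x) - W x‖ ^ n) := by
            rw [integral_add hWi hi3',
              integral_add (integrable_const η) (hdi.const_mul _), setIntegral_const,
              smul_eq_mul, Measure.real, hVr, integral_const_mul]
        _ ≤ (∫ x in cube c t, ‖W x‖) + η * (V + 1) := by
            have h9 : (η / η ^ n) * ∫ x in cube c t, ‖gr (fderiv ℝ (w' k) x) - W x‖ ^ n ≤
                (η / η ^ n) * η ^ n := mul_le_mul_of_nonneg_left hk2.le (by positivity)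
            have h10 : (η / η ^ n) * η ^ n = η := by field_simp
            nlinarith
    have hbk : ∀ x ∈ bcube c t, |w' k x - b| ≤ σ + η := by
      intro x hx
      have h5 := hk1 x (bcube_subset_cube c t hx)
      rw [Real.norm_eq_abs] at h5
      calc |w' k x - b| = |(w x - b) - (w x - w' k x)| := by ring_nf
        _ ≤ |w x - b| + |w x - w' k x| := abs_sub _ _
        _ ≤ σ + η := add_le_add (hb x hx) h5.le
    have h6 := poinc_smooth hn (w' k) (h1 k) c t b (σ + η) ht hbk
    have hi4 : IntegrableOn (fun x => |w' k x - b|) (cube c t) :=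
      (((h1 k).continuous.sub continuous_const).abs.continuousOn).integrableOn_compact hQc
    have hi5 : IntegrableOn (fun x => |w x - b|) (cube c t) :=
      ((hwc.sub continuousOn_const).abs).integrableOn_compact hQc
    have h7 : ∫ x in cube c t, |w x - b| ≤ (∫ x in cube c t, |w' k x - b|) + V * η := by
      calc ∫ x in cube c t, |w x - b| ≤ ∫ x in cube c t, (|w' k x - b| + η) := by
            refine setIntegral_mono_on hi5 (hi4.add (integrable_const η)) hQm fun x hx => ?_
            have h8 := hk1 x hx
            rw [Real.norm_eq_abs] at h8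
            calc |w x - b| = |(w' k x - b) + (w x - w' k x)| := by ring_nf
              _ ≤ |w' k x - b| + |w x - w' k x| := abs_add_le _ _
              _ ≤ _ := add_le_add le_rfl h8.le
        _ = _ := by
            rw [integral_add hi4 (integrable_const η), setIntegral_const, smul_eq_mul,
              Measure.real, hVr]
    have h8 : 2 * t * ∫ x in cube c t, ‖gr (fderiv ℝ (w' k) x)‖ ≤
        2 * t * ((∫ x in cube c t, ‖W x‖) + η * (V + 1)) :=
      mul_le_mul_of_nonneg_left h4 (by positivity)
    have h9 : (2 * t) ^ n * (σ + η) = V * σ + V * η := by rw [hV]; ring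
    linarith
  have hlim : ∫ x in cube c t, |w x - b| ≤ V * σ + 2 * t * (∫ x in cube c t, ‖W x‖) := by
    refine le_of_forall_pos_le_add fun δ hδ => ?_
    set Z : ℝ := 2 * V + 2 * t * (V + 1) with hZ
    have hZ0 : 0 < Z := by positivity
    have := key (δ / Z) (by positivity)
    have h5 : δ / Z * Z = δ := by field_simp
    rw [h5] at this
    exact this
  refine hlim.trans ?_
  have h10 : V = 2 ^ n * t ^ n := by rw [hV, mul_pow]
  rw [h10]
  have h11 : 0 ≤ t ^ n * σ := by positivity
  have h12 : 0 ≤ t * ∫ x in cube c t, ‖W x‖ := by positivity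
  have h13 : (0 : ℝ) < 2 ^ n := by positivity
  nlinarith [mul_nonneg h13.le h12]

end Pool.Agent.SKQ.H41
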